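import Pool.Agent.Y165.TS.THETA
import Pool.Agent.Y259.TS.Mono
import Pool.Agent.Y89.TX.Stm

/-!
TX-NORME: operators normalising the spin representation, even rank.
-/

set_option autoImplicit false

open Matrix Finset

namespace Pool.Agent.Y430.TX

open Pool.Agent.Y89.TS Pool.Agent.Y165.TS
open Pool.Agent.Y89.TX (prs)

section
variable {N : Type} [Fintype N] [DecidableEq N] {n : ℕ} {Γ : Fin n → Matrix N N ℂ}

/-! ### the Casimir operator -/

theorem sgn' (R : Rules Γ) (s : Finset (Fin n)) (a : Fin n) :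
    Γ a * mono Γ s = ((-1 : ℂ) ^ s.card * sg s a) • (mono Γ s * Γ a) := by
  have h1 := R.comm {a} s
  rw [R.sing] at h1
  rw [h1]
  congr 1
  unfold sg
  rw [Finset.card_singleton, one_mul, pow_add]
  split_ifs with h
  · rw [Finset.singleton_inter_of_mem h, Finset.card_singleton, pow_one]
  · rw [Finset.singleton_inter_of_notMem h, Finset.card_empty, pow_zero]

theorem TT_mono' (R : Rules Γ) (hΓ : Clf Γ) (s : Finset (Fin n)) :
    TT Γ (mono Γ s) = lam s • mono Γ s := by
  unfold TT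
  have h1 : ∀ p : {p : Fin n × Fin n // p.1 < p.2}, Eb Γ p * mono Γ s * Eb Γ p =
      (-(sg s p.1.1 * sg s p.1.2)) • mono Γ s := by
    intro p
    have h2 : Eb Γ p * mono Γ s = (sg s p.1.1 * sg s p.1.2) • (mono Γ s * Eb Γ p) := by
      have hsq : ((-1 : ℂ) ^ s.card) * ((-1 : ℂ) ^ s.card) = 1 := by
        rw [← mul_pow]; norm_num
      unfold Eb
      calc Γ p.1.1 * Γ p.1.2 * mono Γ s = Γ p.1.1 * (Γ p.1.2 * mono Γ s) := by rw [mul_assoc]
        _ = ((-1 : ℂ) ^ s.card * sg s p.1.2) • ((Γ p.1.1 * mono Γ s) * Γ p.1.2) := by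
            rw [sgn' R, mul_smul_comm, mul_assoc]
        _ = _ := by
            rw [sgn' R, smul_mul_assoc, smul_smul, mul_assoc (mono Γ s)]
            congr 1
            linear_combination (sg s p.1.1 * sg s p.1.2) * hsq
    rw [h2, smul_mul_assoc, mul_assoc, Eb_sq hΓ, mul_neg, mul_one, smul_neg, neg_smul]
  rw [Finset.sum_congr rfl fun p _ => h1 p, ← Finset.sum_smul]
  congr 1
  have h3 := sum_lt (sg s)
  rw [sum_sg] at h3
  have h4 : ∑ a, sg s a ^ 2 = (n : ℂ) := by
    simp only [sg_sq]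
    simp
  rw [h4] at h3
  rw [Finset.sum_neg_distrib]
  unfold lam
  linear_combination (-1 / 2) * h3

theorem lam_or {s : Finset (Fin n)} {k : Fin n} (h : lam s = lam ({k} : Finset (Fin n))) :
    s.card = 1 ∨ s.card + 1 = n := by
  unfold lam at h
  rw [card_singleton] at h
  have h3 : ((s.card : ℂ) - 1) * ((s.card : ℂ) + 1 - n) = 0 := by
    push_cast at h
    linear_combination (-1 / 2) * h
  rcases mul_eq_zero.1 h3 with h4 | h4
  · left
    have : (s.card : ℂ) = (1 : ℕ) := by push_cast; linear_combination h4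
    exact_mod_cast this
  · right
    have : ((s.card + 1 : ℕ) : ℂ) = (n : ℕ) := by push_cast; linear_combination h4
    exact_mod_cast this

theorem InD_conj (hΓ : Clf Γ) {d : Matrix N N ℂ} (hd : InD Γ d) (k : Fin n) :
    InD Γ (Γ k * d * Γ k) := by
  intro i j
  calc Γ k * d * Γ k * (Γ i * Γ j) = Γ k * (d * (Γ k * Γ i)) * (Γ j * (Γ k * Γ k)) := by
        rw [hΓ.sq]; noncomm_ring
    _ = Γ k * (Γ k * Γ i * d) * (Γ j * (Γ k * Γ k)) := by rw [hd k i]
    _ = (Γ k * Γ k) * Γ i * (d * (Γ j * Γ k)) * Γ k := by noncomm_ring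
    _ = (Γ k * Γ k) * Γ i * (Γ j * Γ k * d) * Γ k := by rw [hd j k]
    _ = Γ i * Γ j * (Γ k * d * Γ k) := by rw [hΓ.sq]; noncomm_ring

/-- the images of the generators -/
theorem img_mem (R : Rules Γ) (hΓ : Clf Γ) [Nonempty N] {g g' : Matrix N N ℂ}
    (hgd : ∀ d, InD Γ d → g * d = d * g) (hgd' : ∀ d, InD Γ d → g' * d = d * g')
    (hT : ∀ X, TT Γ (g * X * g') = g * TT Γ X * g') (k : Fin n) :
    g * Γ k * g' ∈ Submodule.span ℂ (Set.range Γ ∪ Set.range fun a => mono Γ univ * Γ a) := by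
  have hc : (Fintype.card N : ℂ) ≠ 0 := by
    exact_mod_cast Fintype.card_ne_zero
  have hωΓ : ∀ i, mono Γ univ * Γ i = mono Γ {i}ᶜ ∨ mono Γ univ * Γ i = -mono Γ {i}ᶜ := by
    intro i
    have h1 := R.mul univ {i}
    rw [R.sing] at h1
    have : symmDiff (univ : Finset (Fin n)) {i} = {i}ᶜ := by
      ext x
      simp [Finset.mem_symmDiff]
    rwa [this] at h1
  obtain ⟨X, hX⟩ : ∃ X, X = g * Γ k * g' := ⟨_, rfl⟩
  rw [← hX]
  have hXd : ∀ d, InD Γ d → X * Γ k * d = d * (X * Γ k) := by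
    intro d hd
    rw [hX]
    calc g * Γ k * g' * Γ k * d = g * Γ k * (g' * (Γ k * d * (Γ k * Γ k))) := by
          rw [hΓ.sq]; noncomm_ring
      _ = g * Γ k * (g' * (Γ k * d * Γ k)) * Γ k := by noncomm_ring
      _ = g * Γ k * (Γ k * d * Γ k * g') * Γ k := by rw [hgd' _ (InD_conj hΓ hd k)]
      _ = g * ((Γ k * Γ k) * d) * Γ k * g' * Γ k := by noncomm_ring
      _ = d * (g * Γ k * g' * Γ k) := by rw [hΓ.sq, one_mul, hgd d hd]; noncomm_ring
  have hTX : TT Γ X = lam ({k} : Finset (Fin n)) • X := by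
    rw [hX, hT]
    have h1 := TT_mono' R hΓ {k}
    rw [R.sing] at h1
    rw [h1, mul_smul_comm, smul_mul_assoc]
  have h1 := R.key hΓ hXd
  have h2 : X = (Fintype.card N : ℂ)⁻¹ • ((((Fintype.card N : ℂ) • (X * Γ k)) * Γ k)) := by
    rw [smul_mul_assoc, mul_assoc, hΓ.sq, mul_one, smul_smul, inv_mul_cancel₀ hc, one_smul]
  rw [h2, h1, Finset.sum_mul]
  refine Submodule.smul_mem _ _ (Submodule.sum_mem _ fun s _ => ?_)
  rw [smul_mul_assoc]
  obtain ⟨t, ht⟩ : ∃ t, t = symmDiff s {k} := ⟨_, rfl⟩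
  have e1 : mono Γ s * Γ k = mono Γ t ∨ mono Γ s * Γ k = -mono Γ t := by
    have := R.mul s {k}
    rwa [R.sing, ← ht] at this
  have e2 : Γ k * gi Γ s = mono Γ t ∨ Γ k * gi Γ s = -mono Γ t := by
    have := R.mul {k} s
    rw [R.sing, symmDiff_comm, ← ht] at this
    rcases gi_or Γ s with h | h
    · rwa [h]
    · rw [h, mul_neg]
      rcases this with h' | h'
      · right; rw [h']
      · left; rw [h', neg_neg]
  have e3 : (gi Γ s * (X * Γ k)).trace = (Γ k * gi Γ s * X).trace := by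
    rw [← mul_assoc, Matrix.trace_mul_comm, mul_assoc]
  by_cases h3 : t.card = 1 ∨ t.card + 1 = n
  · refine Submodule.smul_mem _ _ ?_
    have h4 : mono Γ t ∈
        Submodule.span ℂ (Set.range Γ ∪ Set.range fun a => mono Γ univ * Γ a) := by
      rcases h3 with h3 | h3
      · obtain ⟨a, ha⟩ := Finset.card_eq_one.1 h3
        rw [ha, R.sing]
        exact Submodule.subset_span (Or.inl ⟨a, rfl⟩)
      · have h4 : tᶜ.card = 1 := by
          rw [Finset.card_compl, Fintype.card_fin]; omega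
        obtain ⟨a, ha⟩ := Finset.card_eq_one.1 h4
        have h5 : t = {a}ᶜ := by rw [← ha, compl_compl]
        rw [h5]
        rcases hωΓ a with h6 | h6
        · rw [← h6]
          exact Submodule.subset_span (Or.inr ⟨a, rfl⟩)
        · have h7 : mono Γ {a}ᶜ = -(mono Γ univ * Γ a) := by rw [h6, neg_neg]
          rw [h7]
          exact Submodule.neg_mem _ (Submodule.subset_span (Or.inr ⟨a, rfl⟩))
    rcases e1 with h | h
    · rw [h]; exact h4
    · rw [h]; exact Submodule.neg_mem _ h4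
  · have h4 : (mono Γ t * X).trace = 0 := by
      have h6 := TT_tr (Γ := Γ) (mono Γ t) X
      rw [TT_mono' R hΓ, hTX, mul_smul_comm, smul_mul_assoc, Matrix.trace_smul, Matrix.trace_smul,
        smul_eq_mul, smul_eq_mul] at h6
      have h7 : (lam ({k} : Finset (Fin n)) - lam t) * (mono Γ t * X).trace = 0 := by
        linear_combination h6
      rcases mul_eq_zero.1 h7 with h8 | h8
      · exact absurd (lam_or (sub_eq_zero.1 h8).symm) h3
      · exact h8
    have h5 : (gi Γ s * (X * Γ k)).trace = 0 := by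
      rw [e3]
      rcases e2 with h | h
      · rw [h, h4]
      · rw [h, neg_mul, Matrix.trace_neg, h4, neg_zero]
    rw [h5, zero_smul]
    exact Submodule.zero_mem _

/-! ### the orthogonal Lie algebra -/

/-- twice the elementary skew matrix -/
noncomputable def J (i j : Fin n) : Matrix (Fin n) (Fin n) ℂ :=
  Matrix.of fun m k => (if i = m then (if j = k then (2 : ℂ) else 0) else 0) -
    if j = m then (if i = k then (2 : ℂ) else 0) else 0

omit [Fintype N] [DecidableEq N] in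
theorem J_sum (X : Fin n → Matrix N N ℂ) (i j k : Fin n) : ∑ m, J i j m k • X m =
    (if j = k then (2 : ℂ) else 0) • X i - (if i = k then (2 : ℂ) else 0) • X j := by
  unfold J
  simp only [Matrix.of_apply, sub_smul, sum_sub_distrib, ite_smul, zero_smul, sum_ite_eq,
    mem_univ, if_true]

theorem J_mul (F : Matrix (Fin n) (Fin n) ℂ) (i j a b : Fin n) : (F * J i j) a b =
    F a i * (if j = b then 2 else 0) - F a j * (if i = b then 2 else 0) := by
  rw [Matrix.mul_apply]
  unfold J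
  simp only [Matrix.of_apply, mul_sub, sum_sub_distrib, mul_ite, mul_zero, sum_ite_eq,
    mem_univ, if_true]

theorem mul_J (F : Matrix (Fin n) (Fin n) ℂ) (i j a b : Fin n) : (J i j * F) a b =
    (if i = a then 2 * F j b else 0) - (if j = a then 2 * F i b else 0) := by
  rw [Matrix.mul_apply]
  unfold J
  simp only [Matrix.of_apply, sub_mul, sum_sub_distrib, ite_mul, zero_mul]
  congr 1
  · split_ifs with h
    · simp only [sum_ite_eq, mem_univ, if_true]
    · simp
  · split_ifs with h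
    · simp only [sum_ite_eq, mem_univ, if_true]
    · simp

theorem J_tr (i j : Fin n) : (J i j)ᵀ = -J i j := by
  ext a b
  rw [Matrix.transpose_apply, Matrix.neg_apply]
  unfold J
  simp only [Matrix.of_apply]
  split_ifs <;> norm_num

/-- matrices which commute with the skew matrices are scalars -/
theorem scal (hn : 3 ≤ n) (M : Matrix (Fin n) (Fin n) ℂ)
    (h : ∀ i j, i ≠ j → M * J i j = J i j * M) : ∃ c : ℂ, M = c • 1 := by
  have h1 : ∀ i j, i ≠ j → M i i = M j j := by
    intro i j hij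
    have := congrFun (congrFun (h i j hij) i) j
    rw [J_mul, mul_J, if_pos rfl, if_neg hij, if_pos rfl, if_neg hij.symm] at this
    linear_combination (1 / 2) * this
  have h2 : ∀ a i, a ≠ i → M a i = 0 := by
    intro a i hai
    obtain ⟨j, hj⟩ : ∃ j, j ∉ ({a, i} : Finset (Fin n)) := by
      by_contra hcon
      push Not at hcon
      have h3 : (univ : Finset (Fin n)) ⊆ {a, i} := fun x _ => hcon x
      have h4 := Finset.card_le_card h3
      rw [Finset.card_univ, Fintype.card_fin] at h4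
      have h5 := Finset.card_le_two (a := a) (b := i)
      omega
    simp only [Finset.mem_insert, Finset.mem_singleton, not_or] at hj
    have := congrFun (congrFun (h i j (Ne.symm hj.2)) a) j
    rw [J_mul, mul_J, if_pos rfl, if_neg (Ne.symm hj.2), if_neg (Ne.symm hai), if_neg hj.1] at this
    linear_combination (1 / 2) * this
  refine ⟨M ⟨0, by omega⟩ ⟨0, by omega⟩, ?_⟩
  ext a b
  rw [Matrix.smul_apply, Matrix.one_apply]
  by_cases hab : a = b
  · rw [if_pos hab, smul_eq_mul, mul_one, ← hab]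
    by_cases ha : a = ⟨0, by omega⟩
    · rw [ha]
    · exact h1 _ _ ha
  · rw [if_neg hab, smul_zero]
    exact h2 a b hab

theorem brk (hΓ : Clf Γ) {i j : Fin n} (hij : i ≠ j) (k : Fin n) :
    Γ i * Γ j * Γ k - Γ k * (Γ i * Γ j) = ∑ m, J i j m k • Γ m := by
  rw [J_sum]
  by_cases h1 : j = k
  · subst h1
    rw [if_pos rfl, if_neg hij, zero_smul, sub_zero]
    have e : Γ j * (Γ i * Γ j) = -Γ i := by
      rw [← mul_assoc, hΓ.anti j i hij.symm, neg_mul, mul_assoc, hΓ.sq, mul_one]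
    rw [e, mul_assoc, hΓ.sq, mul_one, two_smul]
    noncomm_ring
  · rw [if_neg h1, zero_smul]
    by_cases h2 : i = k
    · subst h2
      rw [if_pos rfl]
      have e : Γ i * Γ j * Γ i = -Γ j := by
        rw [hΓ.anti i j hij, neg_mul, mul_assoc, hΓ.sq, mul_one]
      rw [e, ← mul_assoc, hΓ.sq, one_mul, two_smul]
      noncomm_ring
    · rw [if_neg h2, zero_smul, sub_zero]
      have e : Γ i * Γ j * Γ k = Γ k * (Γ i * Γ j) := by
        calc Γ i * Γ j * Γ k = Γ i * (Γ j * Γ k) := by rw [mul_assoc]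
          _ = -((Γ i * Γ k) * Γ j) := by rw [hΓ.anti j k h1]; noncomm_ring
          _ = _ := by rw [hΓ.anti i k h2]; noncomm_ring
      rw [e, sub_self]

theorem skew_of (hΓ : Clf Γ) {z : Matrix N N ℂ} (hz : z ∈ Submodule.span ℂ (prs Γ)) :
    ∃ ζ : Matrix (Fin n) (Fin n) ℂ, ζᵀ = -ζ ∧ ∀ k, z * Γ k - Γ k * z = ∑ m, ζ m k • Γ m := by
  induction hz using Submodule.span_induction with
  | mem x hx =>
    obtain ⟨i, j, hij, rfl⟩ := hx
    exact ⟨J i j, J_tr i j, fun k => brk hΓ hij k⟩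
  | zero =>
    refine ⟨0, by simp, fun k => ?_⟩
    simp
  | add x y _ _ hx hy =>
    obtain ⟨ζ, h1, h2⟩ := hx
    obtain ⟨ξ, h3, h4⟩ := hy
    refine ⟨ζ + ξ, by rw [Matrix.transpose_add, h1, h3, neg_add], fun k => ?_⟩
    simp only [Matrix.add_apply, add_smul, sum_add_distrib]
    rw [← h2, ← h4]
    noncomm_ring
  | smul c x _ hx =>
    obtain ⟨ζ, h1, h2⟩ := hx
    refine ⟨c • ζ, by rw [Matrix.transpose_smul, h1, smul_neg], fun k => ?_⟩
    simp only [Matrix.smul_apply, smul_assoc, ← smul_sum]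
    rw [← h2, smul_mul_assoc, mul_smul_comm, smul_sub]

/-- the equivariance -/
theorem equi {z T : Matrix N N ℂ} {Y : Fin n → Matrix N N ℂ} {ζ : Matrix (Fin n) (Fin n) ℂ}
    {i j : Fin n} (hζ : ζᵀ = -ζ) (h1 : ∀ k, z * Γ k - Γ k * z = ∑ m, ζ m k • Γ m)
    (hT : T * z = z * T) (h2 : ∀ k, z * Y k - Y k * z = ∑ m, J i j m k • Y m) :
    ζ * (Matrix.of fun m k => (Γ m * (T * Y k)).trace) =
      (Matrix.of fun m k => (Γ m * (T * Y k)).trace) * J i j := by
  ext l k
  rw [Matrix.mul_apply, Matrix.mul_apply]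
  simp only [Matrix.of_apply]
  have e1 : ∀ m, ζ l m = -ζ m l := fun m => by
    have := congrFun (congrFun hζ m) l
    rw [Matrix.transpose_apply, Matrix.neg_apply] at this
    exact this
  have e2 : ∑ m, ζ l m * (Γ m * (T * Y k)).trace =
      -((∑ m, ζ m l • Γ m) * (T * Y k)).trace := by
    rw [sum_mul, Matrix.trace_sum, ← sum_neg_distrib]
    refine sum_congr rfl fun m _ => ?_
    rw [e1, smul_mul_assoc, Matrix.trace_smul, smul_eq_mul, neg_mul]
  have e3 : ∑ m, (Γ l * (T * Y m)).trace * J i j m k =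
      (Γ l * (T * ∑ m, J i j m k • Y m)).trace := by
    rw [mul_sum, mul_sum, Matrix.trace_sum]
    refine sum_congr rfl fun m _ => ?_
    rw [mul_smul_comm, mul_smul_comm, Matrix.trace_smul, smul_eq_mul, mul_comm]
  rw [e2, e3, ← h1, ← h2]
  have e4 : (z * Γ l * (T * Y k)).trace = (Γ l * (T * (Y k * z))).trace := by
    rw [mul_assoc, Matrix.trace_mul_comm]
    congr 1
    noncomm_ring
  have e5 : Γ l * z * (T * Y k) = Γ l * (T * (z * Y k)) := by
    calc Γ l * z * (T * Y k) = Γ l * (z * T) * Y k := by noncomm_ring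
      _ = _ := by rw [← hT]; noncomm_ring
  rw [sub_mul, Matrix.trace_sub, e4, e5, mul_sub, mul_sub, Matrix.trace_sub]
  ring

theorem gram {ζ F G : Matrix (Fin n) (Fin n) ℂ} {i j : Fin n} (hζ : ζᵀ = -ζ)
    (hF : ζ * F = F * J i j) (hG : ζ * G = G * J i j) :
    Fᵀ * G * J i j = J i j * (Fᵀ * G) := by
  have h1 : Fᵀ * ζ = J i j * Fᵀ := by
    have h2 := congrArg Matrix.transpose hF
    rw [Matrix.transpose_mul, Matrix.transpose_mul, hζ, J_tr, Matrix.mul_neg, Matrix.neg_mul,
      neg_inj] at h2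
    exact h2
  rw [Matrix.mul_assoc, ← hG, ← Matrix.mul_assoc, h1, Matrix.mul_assoc]

end

open Pool.Agent.Y89.TX in
theorem t_norme : S_norme := by
  intro N _ _ n Γ hΓ hn hn4 g g' hgg hgg' hgd hgE
  have R := rules Pool.Agent.Y259.TS.t_mono hΓ
  rcases isEmpty_or_nonempty N with hN | hN
  · refine ⟨1, 1, 0, by simp, Subsingleton.elim _ _, fun i => Subsingleton.elim _ _⟩
  have hc : (Fintype.card N : ℂ) ≠ 0 := by
    exact_mod_cast Fintype.card_ne_zero
  -- g' commutes with the commutant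
  have hgd' : ∀ d, InD Γ d → g' * d = d * g' := by
    intro d hd
    calc g' * d = g' * d * (g * g') := by rw [hgg, mul_one]
      _ = g' * (d * g) * g' := by noncomm_ring
      _ = g' * (g * d) * g' := by rw [hgd d hd]
      _ = (g' * g) * d * g' := by noncomm_ring
      _ = d * g' := by rw [hgg', one_mul]
  -- conjugation preserves the Lie algebra
  have hsp : ∀ p, g * Eb Γ p * g' ∈ Submodule.span ℂ (Set.range (Eb Γ)) := by
    intro p
    have h1 := hgE p.1.1 p.1.2 p.2.ne
    refine (Submodule.span_le.2 ?_) h1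
    rintro z ⟨i, j, hij, rfl⟩
    rcases lt_or_gt_of_ne hij with hlt | hlt
    · exact Submodule.subset_span ⟨⟨(i, j), hlt⟩, rfl⟩
    · rw [hΓ.anti i j hij]
      exact Submodule.neg_mem _ (Submodule.subset_span ⟨⟨(j, i), hlt⟩, rfl⟩)
  have hcoef : ∀ p, ∃ c : {p : Fin n × Fin n // p.1 < p.2} → ℂ,
      ∑ q, c q • Eb Γ q = g * Eb Γ p * g' := fun p =>
    (Submodule.mem_span_range_iff_exists_fun ℂ).1 (hsp p)
  choose o ho using hcoef
  have hT : ∀ X, TT Γ (g * X * g') = g * TT Γ X * g' := by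
    intro X
    let B : Matrix N N ℂ →ₗ[ℂ] Matrix N N ℂ →ₗ[ℂ] Matrix N N ℂ :=
      LinearMap.mk₂ ℂ (fun A C => A * (g * X * g') * C)
        (fun A A' C => by noncomm_ring) (fun c A C => by simp only [smul_mul_assoc])
        (fun A C C' => by noncomm_ring) (fun c A C => by simp only [mul_smul_comm])
    have h1 := orth (Eb Γ) (fun p => g * Eb Γ p * g') (fun p q => o p q)
      (fun p => (ho p).symm) (-(Fintype.card N : ℂ)) (neg_ne_zero.2 hc) (R.Eb_tr hΓ)
      (fun p q => by
        have e : g * Eb Γ p * g' * (g * Eb Γ q * g') = g * (Eb Γ p * Eb Γ q * g') := by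
          calc _ = g * Eb Γ p * (g' * g) * (Eb Γ q * g') := by noncomm_ring
            _ = _ := by rw [hgg']; noncomm_ring
        rw [e, Matrix.trace_mul_comm, mul_assoc, hgg', mul_one]
        exact R.Eb_tr hΓ p q) B
    have h2 : ∑ q, B (Eb Γ q) (Eb Γ q) = TT Γ (g * X * g') := rfl
    rw [← h2, ← h1]
    unfold TT
    rw [Finset.mul_sum, Finset.sum_mul]
    refine Finset.sum_congr rfl fun p _ => ?_
    show g * Eb Γ p * g' * (g * X * g') * (g * Eb Γ p * g') = _
    calc _ = g * Eb Γ p * (g' * g) * X * (g' * g) * Eb Γ p * g' := by noncomm_ring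
      _ = _ := by rw [hgg']; noncomm_ring
  -- the volume element
  obtain ⟨w, hw⟩ : ∃ w, w = mono Γ univ := ⟨_, rfl⟩
  have hwΓ : ∀ i, w * Γ i = -(Γ i * w) := by
    intro i
    have h1 := R.comm univ {i}
    have h2 : Odd ((univ : Finset (Fin n)).card * ({i} : Finset (Fin n)).card +
        (univ ∩ {i}).card) := by
      rw [Finset.univ_inter, Finset.card_univ, Fintype.card_fin, Finset.card_singleton, mul_one]
      exact hn.add_one
    rw [h2.neg_one_pow, R.sing, neg_smul, one_smul] at h1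
    rw [hw, h1]
  have hwp : ∀ i j, w * (Γ i * Γ j) = Γ i * Γ j * w := by
    intro i j
    rw [← mul_assoc, hwΓ, neg_mul, mul_assoc, hwΓ]
    noncomm_ring
  have hwg : g * w = w * g := hgd w hwp
  have hwg' : g' * w = w * g' := hgd' w hwp
  obtain ⟨ε, hε, hww⟩ : ∃ ε : ℂ, ε * ε = 1 ∧ w * w = ε • 1 := by
    rcases R.sq_or univ with h | h
    · exact ⟨1, by norm_num, by rw [hw, h, one_smul]⟩
    · exact ⟨-1, by norm_num, by rw [hw, h, neg_smul, one_smul]⟩
  -- traces
  have htr1 : ∀ i j, (Γ i * Γ j).trace = if i = j then (Fintype.card N : ℂ) else 0 := by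
    intro i j
    split_ifs with hij
    · subst hij
      rw [hΓ.sq, Matrix.trace_one]
    · have h1 : (Γ i * Γ j).trace = -(Γ i * Γ j).trace := by
        conv_lhs => rw [hΓ.anti i j hij, Matrix.trace_neg, Matrix.trace_mul_comm]
      linear_combination (1 / 2) * h1
  have htr2 : ∀ i j, (Γ i * (w * Γ j)).trace = 0 := by
    intro i j
    obtain ⟨c, hc'⟩ : ∃ c, c ∉ ({i, j} : Finset (Fin n)) := by
      by_contra hcon
      push Not at hcon
      have h3 : (univ : Finset (Fin n)) ⊆ {i, j} := fun x _ => hcon x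
      have h4 := Finset.card_le_card h3
      rw [Finset.card_univ, Fintype.card_fin] at h4
      have h5 := Finset.card_le_two (a := i) (b := j)
      omega
    simp only [Finset.mem_insert, Finset.mem_singleton, not_or] at hc'
    have h1 : Γ c * (Γ i * (w * Γ j)) = -(Γ i * (w * Γ j) * Γ c) := by
      calc Γ c * (Γ i * (w * Γ j)) = (Γ c * Γ i) * w * Γ j := by noncomm_ring
        _ = -(Γ i * (Γ c * w) * Γ j) := by rw [hΓ.anti c i hc'.1]; noncomm_ring
        _ = Γ i * w * (Γ c * Γ j) := by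
            have : Γ c * w = -(w * Γ c) := by rw [hwΓ, neg_neg]
            rw [this]
            noncomm_ring
        _ = _ := by rw [hΓ.anti c j hc'.2]; noncomm_ring
    have h2 : (Γ i * (w * Γ j)).trace = -(Γ i * (w * Γ j)).trace := by
      calc (Γ i * (w * Γ j)).trace = (Γ c * Γ c * (Γ i * (w * Γ j))).trace := by
            rw [hΓ.sq, one_mul]
        _ = (Γ c * (Γ c * (Γ i * (w * Γ j)))).trace := by rw [mul_assoc]
        _ = -(Γ c * (Γ i * (w * Γ j) * Γ c)).trace := by rw [h1, mul_neg, Matrix.trace_neg]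
        _ = -(Γ i * (w * Γ j) * Γ c * Γ c).trace := by rw [Matrix.trace_mul_comm]
        _ = _ := by rw [mul_assoc, hΓ.sq, mul_one]
    linear_combination (1 / 2) * h2
  -- the images
  obtain ⟨Y, hY⟩ : ∃ Y : Fin n → Matrix N N ℂ, Y = fun k => g * Γ k * g' := ⟨_, rfl⟩
  obtain ⟨P, hP⟩ : ∃ P : Matrix (Fin n) (Fin n) ℂ,
    P = Matrix.of fun m k => (Γ m * (1 * Y k)).trace := ⟨_, rfl⟩
  obtain ⟨Q, hQ⟩ : ∃ Q : Matrix (Fin n) (Fin n) ℂ,
    Q = Matrix.of fun m k => (Γ m * (w * Y k)).trace := ⟨_, rfl⟩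
  have hYexp : ∀ k, (Fintype.card N : ℂ) • Y k =
      ∑ m, P m k • Γ m + ∑ m, (ε * Q m k) • (w * Γ m) := by
    intro k
    have h1 := img_mem R hΓ hgd hgd' hT k
    rw [Submodule.span_union, Submodule.mem_sup] at h1
    obtain ⟨u, hu, v, hv, huv⟩ := h1
    obtain ⟨x, hx⟩ := (Submodule.mem_span_range_iff_exists_fun ℂ).1 hu
    obtain ⟨y, hy⟩ := (Submodule.mem_span_range_iff_exists_fun ℂ).1 hv
    have hYk : Y k = ∑ m, x m • Γ m + ∑ m, y m • (w * Γ m) := by
      rw [hY]
      simp only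
      rw [← huv, ← hx, ← hy, hw]
    have e1 : ∀ m, P m k = Fintype.card N * x m := by
      intro m
      rw [hP, Matrix.of_apply, one_mul, hYk, mul_add, mul_sum, mul_sum, Matrix.trace_add,
        Matrix.trace_sum, Matrix.trace_sum]
      simp only [mul_smul_comm, Matrix.trace_smul, htr1, htr2, smul_eq_mul, mul_zero,
        sum_const_zero, add_zero, mul_ite, sum_ite_eq, mem_univ, if_true]
      ring
    have e2 : ∀ m, Q m k = ε * (Fintype.card N * y m) := by
      intro m
      have e3 : ∀ l, Γ m * (w * (w * Γ l)) = ε • (Γ m * Γ l) := by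
        intro l
        rw [← mul_assoc w w, hww, smul_mul_assoc, one_mul, mul_smul_comm]
      rw [hQ, Matrix.of_apply, hYk, mul_add, mul_add, mul_sum, mul_sum, mul_sum, mul_sum,
        Matrix.trace_add, Matrix.trace_sum, Matrix.trace_sum]
      simp only [mul_smul_comm, Matrix.trace_smul, htr1, htr2, e3, smul_eq_mul, mul_zero,
        sum_const_zero, zero_add, mul_ite, sum_ite_eq, mem_univ, if_true]
      ring
    rw [hYk, smul_add, smul_sum, smul_sum]
    congr 1
    · refine sum_congr rfl fun m _ => ?_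
      rw [smul_smul, e1]
    · refine sum_congr rfl fun m _ => ?_
      rw [smul_smul, e2]
      congr 1
      linear_combination (-(Fintype.card N * y m)) * hε
  -- the Gram matrices
  have hE : ∀ i j, i ≠ j → ∃ ζ : Matrix (Fin n) (Fin n) ℂ, ζᵀ = -ζ ∧ ζ * P = P * J i j ∧
      ζ * Q = Q * J i j := by
    intro i j hij
    obtain ⟨ζ, h1, h2⟩ := skew_of hΓ (hgE i j hij)
    have h3 : ∀ k, g * (Γ i * Γ j) * g' * Y k - Y k * (g * (Γ i * Γ j) * g') =
        ∑ m, J i j m k • Y m := by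
      intro k
      have e1 : g * (Γ i * Γ j) * g' * Y k = g * (Γ i * Γ j * Γ k) * g' := by
        rw [hY]
        calc _ = g * (Γ i * Γ j) * (g' * g) * Γ k * g' := by noncomm_ring
          _ = _ := by rw [hgg']; noncomm_ring
      have e2 : Y k * (g * (Γ i * Γ j) * g') = g * (Γ k * (Γ i * Γ j)) * g' := by
        rw [hY]
        calc _ = g * Γ k * (g' * g) * (Γ i * Γ j) * g' := by noncomm_ring
          _ = _ := by rw [hgg']; noncomm_ring
      have e3 : g * (Γ i * Γ j * Γ k) * g' - g * (Γ k * (Γ i * Γ j)) * g' =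
          g * (Γ i * Γ j * Γ k - Γ k * (Γ i * Γ j)) * g' := by noncomm_ring
      rw [e1, e2, e3, brk hΓ hij, mul_sum, sum_mul, hY]
      refine sum_congr rfl fun m _ => ?_
      rw [mul_smul_comm, smul_mul_assoc]
    have h4 : w * (g * (Γ i * Γ j) * g') = g * (Γ i * Γ j) * g' * w := by
      calc w * (g * (Γ i * Γ j) * g') = (w * g) * (Γ i * Γ j) * g' := by noncomm_ring
        _ = g * (w * (Γ i * Γ j)) * g' := by rw [← hwg]; noncomm_ring
        _ = g * (Γ i * Γ j) * (w * g') := by rw [hwp]; noncomm_ring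
        _ = _ := by rw [← hwg']; noncomm_ring
    refine ⟨ζ, h1, ?_, ?_⟩
    · rw [hP]
      exact equi h1 h2 (by rw [one_mul, mul_one]) h3
    · rw [hQ]
      exact equi h1 h2 h4 h3
  have hn3 : 3 ≤ n := by omega
  obtain ⟨p₀, hp₀⟩ := scal hn3 (Pᵀ * P) fun i j hij => by
    obtain ⟨ζ, h1, h2, h3⟩ := hE i j hij
    exact gram h1 h2 h2
  obtain ⟨q₀, hq₀⟩ := scal hn3 (Pᵀ * Q) fun i j hij => by
    obtain ⟨ζ, h1, h2, h3⟩ := hE i j hij
    exact gram h1 h2 h3
  obtain ⟨s₀, hs₀⟩ := scal hn3 (Qᵀ * Q) fun i j hij => by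
    obtain ⟨ζ, h1, h2, h3⟩ := hE i j hij
    exact gram h1 h3 h3
  -- the norm
  have hnorm : p₀ - ε * s₀ = (Fintype.card N : ℂ) ^ 2 := by
    obtain ⟨k, -⟩ : ∃ k : Fin n, True := ⟨⟨0, by omega⟩, trivial⟩
    have e1 : Y k * Y k = 1 := by
      rw [hY]
      calc g * Γ k * g' * (g * Γ k * g') = g * Γ k * (g' * g) * Γ k * g' := by noncomm_ring
        _ = g * (Γ k * Γ k) * g' := by rw [hgg']; noncomm_ring
        _ = 1 := by rw [hΓ.sq, mul_one, hgg]
    have e2 : (((Fintype.card N : ℂ) • Y k) * Y k).trace = (Fintype.card N : ℂ) ^ 2 := by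
      rw [smul_mul_assoc, e1, Matrix.trace_smul, Matrix.trace_one, smul_eq_mul, sq]
    have e3 : ∀ m, (Γ m * Y k).trace = P m k := fun m => by
      rw [hP, Matrix.of_apply, one_mul]
    have e4 : ∀ m, (w * Γ m * Y k).trace = -Q m k := fun m => by
      rw [hwΓ, neg_mul, Matrix.trace_neg, mul_assoc, hQ, Matrix.of_apply]
    rw [hYexp, add_mul, sum_mul, sum_mul, Matrix.trace_add, Matrix.trace_sum,
      Matrix.trace_sum] at e2
    simp only [smul_mul_assoc, Matrix.trace_smul, e3, e4, smul_eq_mul] at e2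
    have e5 : p₀ = ∑ m, P m k * P m k := by
      have := congrFun (congrFun hp₀ k) k
      rw [Matrix.mul_apply, Matrix.smul_apply, Matrix.one_apply_eq, smul_eq_mul, mul_one] at this
      exact this.symm
    have e6 : s₀ = ∑ m, Q m k * Q m k := by
      have := congrFun (congrFun hs₀ k) k
      rw [Matrix.mul_apply, Matrix.smul_apply, Matrix.one_apply_eq, smul_eq_mul, mul_one] at this
      exact this.symm
    rw [← e2, e5, e6, mul_sum, sub_eq_add_neg, ← sum_neg_distrib]
    congr 1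
    refine sum_congr rfl fun m _ => ?_
    ring
  -- the conclusion
  have hfin : ∀ (F : Matrix (Fin n) (Fin n) ℂ) (f₀ μ ν : ℂ), f₀ ≠ 0 → Fᵀ * F = f₀ • 1 →
      P = μ • F → Q = ν • F →
      ∃ (r : Matrix (Fin n) (Fin n) ℂ) (α β : ℂ), r * rᵀ = 1 ∧
        (α • 1 + β • mono Γ univ) * (α • 1 - β • mono Γ univ) = 1 ∧
        ∀ i, g * Γ i * g' = (∑ j, r j i • Γ j) * (α • 1 + β • mono Γ univ) := by
    intro F f₀ μ ν hf₀ hF hPF hQF
    have hp : p₀ = μ ^ 2 * f₀ := by
      have h1 := hp₀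
      rw [hPF, Matrix.transpose_smul, smul_mul_smul_comm, hF, smul_smul] at h1
      have h2 := congrFun (congrFun h1 ⟨0, by omega⟩) ⟨0, by omega⟩
      simp only [Matrix.smul_apply, Matrix.one_apply_eq, smul_eq_mul, mul_one] at h2
      rw [← h2]
      ring
    have hs : s₀ = ν ^ 2 * f₀ := by
      have h1 := hs₀
      rw [hQF, Matrix.transpose_smul, smul_mul_smul_comm, hF, smul_smul] at h1
      have h2 := congrFun (congrFun h1 ⟨0, by omega⟩) ⟨0, by omega⟩
      simp only [Matrix.smul_apply, Matrix.one_apply_eq, smul_eq_mul, mul_one] at h2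
      rw [← h2]
      ring
    obtain ⟨c, hcc⟩ : ∃ c : ℂ, f₀ = c * c := IsAlgClosed.exists_pow_nat_eq f₀ (n := 2) (by norm_num) |>.elim
      fun c hc' => ⟨c, by rw [← hc', sq]⟩
    have hc0 : c ≠ 0 := by
      intro h
      rw [h, mul_zero] at hcc
      exact hf₀ hcc
    have hFt : F * Fᵀ = f₀ • 1 := by
      have h1 : (f₀⁻¹ • Fᵀ) * F = 1 := by
        rw [smul_mul_assoc, hF, smul_smul, inv_mul_cancel₀ hf₀, one_smul]
      have h2 : F * (f₀⁻¹ • Fᵀ) = 1 := mul_eq_one_comm.1 h1
      rw [mul_smul_comm] at h2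
      rw [← h2, smul_smul, mul_inv_cancel₀ hf₀, one_smul]
    refine ⟨c⁻¹ • F, (Fintype.card N : ℂ)⁻¹ * (c * μ), -((Fintype.card N : ℂ)⁻¹ * (c * (ε * ν))),
      ?_, ?_, ?_⟩
    · rw [Matrix.transpose_smul, smul_mul_smul_comm, hFt, smul_smul, hcc]
      have : c⁻¹ * c⁻¹ * (c * c) = 1 := by field_simp
      rw [this, one_smul]
    · rw [← hw]
      generalize hα : (Fintype.card N : ℂ)⁻¹ * (c * μ) = α
      generalize hβ : -((Fintype.card N : ℂ)⁻¹ * (c * (ε * ν))) = β
      have e1 : (α • 1 + β • w) * (α • 1 - β • w) = (α ^ 2) • 1 - (β ^ 2) • (w * w) := by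
        simp only [add_mul, mul_sub, smul_mul_smul_comm, one_mul, mul_one]
        rw [mul_comm β α, sq, sq]
        abel
      have e2 : (1 : Matrix N N ℂ) = (1 : ℂ) • 1 := by rw [one_smul]
      rw [e1, hww, smul_smul, ← sub_smul]
      conv_rhs => rw [e2]
      congr 1
      rw [← hα, ← hβ]
      rw [hp, hs, hcc] at hnorm
      field_simp
      linear_combination hnorm - (c ^ 2 * ν ^ 2 * ε) * hε
    · intro i
      have e1 : (Fintype.card N : ℂ) • Y i = (∑ j, F j i • Γ j) * (μ • 1 - (ε * ν) • w) := by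
        rw [hYexp, hPF, hQF, sum_mul, ← sum_add_distrib]
        refine sum_congr rfl fun m _ => ?_
        rw [Matrix.smul_apply, Matrix.smul_apply, hwΓ, mul_sub, smul_mul_smul_comm,
          smul_mul_smul_comm, mul_one, smul_neg, sub_eq_add_neg, smul_eq_mul, smul_eq_mul]
        congr 2
        · rw [mul_comm]
        · congr 1
          ring
      have e2 : g * Γ i * g' = (Fintype.card N : ℂ)⁻¹ • ((Fintype.card N : ℂ) • Y i) := by
        rw [smul_smul, inv_mul_cancel₀ hc, one_smul, hY]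
      rw [e2, e1, ← hw]
      have e3 : ∑ j, (c⁻¹ • F) j i • Γ j = c⁻¹ • ∑ j, F j i • Γ j := by
        rw [smul_sum]
        refine sum_congr rfl fun m _ => ?_
        rw [Matrix.smul_apply, smul_assoc]
      rw [e3, smul_mul_assoc, mul_add, mul_sub, mul_smul_comm, mul_smul_comm, mul_smul_comm,
        mul_smul_comm, smul_sub, smul_add, smul_smul, smul_smul, smul_smul, smul_smul]
      rw [sub_eq_add_neg, ← neg_smul]
      congr 2
      · field_simp
      · field_simp
  by_cases hp0 : p₀ = 0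
  · have hs0 : s₀ ≠ 0 := by
      intro h
      rw [hp0, h, mul_zero, sub_zero] at hnorm
      exact (pow_ne_zero 2 hc) hnorm.symm
    have hQt : Q * Qᵀ = s₀ • 1 := by
      have h1 : (s₀⁻¹ • Qᵀ) * Q = 1 := by
        rw [smul_mul_assoc, hs₀, smul_smul, inv_mul_cancel₀ hs0, one_smul]
      have h2 : Q * (s₀⁻¹ • Qᵀ) = 1 := mul_eq_one_comm.1 h1
      rw [mul_smul_comm] at h2
      rw [← h2, smul_smul, mul_inv_cancel₀ hs0, one_smul]
    have hQP : Qᵀ * P = q₀ • 1 := by
      have := congrArg Matrix.transpose hq₀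
      rwa [Matrix.transpose_mul, Matrix.transpose_transpose, Matrix.transpose_smul,
        Matrix.transpose_one] at this
    refine hfin Q s₀ (q₀ / s₀) 1 hs0 hs₀ ?_ (by rw [one_smul])
    have h1 : s₀ • P = q₀ • Q := by
      calc s₀ • P = (s₀ • (1 : Matrix (Fin n) (Fin n) ℂ)) * P := by rw [smul_mul_assoc, one_mul]
        _ = Q * (Qᵀ * P) := by rw [← hQt, mul_assoc]
        _ = _ := by rw [hQP, mul_smul_comm, mul_one]
    rw [div_eq_inv_mul, mul_smul, ← h1, smul_smul, inv_mul_cancel₀ hs0, one_smul]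
  · have hPt : P * Pᵀ = p₀ • 1 := by
      have h1 : (p₀⁻¹ • Pᵀ) * P = 1 := by
        rw [smul_mul_assoc, hp₀, smul_smul, inv_mul_cancel₀ hp0, one_smul]
      have h2 : P * (p₀⁻¹ • Pᵀ) = 1 := mul_eq_one_comm.1 h1
      rw [mul_smul_comm] at h2
      rw [← h2, smul_smul, mul_inv_cancel₀ hp0, one_smul]
    refine hfin P p₀ 1 (q₀ / p₀) hp0 hp₀ (by rw [one_smul]) ?_
    have h1 : p₀ • Q = q₀ • P := by
      calc p₀ • Q = (p₀ • (1 : Matrix (Fin n) (Fin n) ℂ)) * Q := by rw [smul_mul_assoc, one_mul]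
        _ = P * (Pᵀ * Q) := by rw [← hPt, mul_assoc]
        _ = _ := by rw [hq₀, mul_smul_comm, mul_one]
    rw [div_eq_inv_mul, mul_smul, ← h1, smul_smul, inv_mul_cancel₀ hp0, one_smul]

end Pool.Agent.Y430.TX
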